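import Pool.Agent.W2helper26.CN.Defs

/-! # Project CN, piece PAD -/

set_option autoImplicit false

namespace Pool.Agent.W2helper59.CN

open Finset Pool.Agent Pool.Agent.W2helper26.CN

theorem p_pad : P_PAD := by
  classical
  intro n r u q m hn hum hmq
  set T1 : Finset (W953.KC.Prs n) :=
    Finset.univ.filter (fun p => r ≤ p.1.2.1 ∧ p.1.2.1 < r + u) with hT1
  have h1 : T1.card ≤ u * (r + u) := by
    have h3 : T1.card ≤ (Finset.range (r + u) ×ˢ Finset.Ico r (r + u)).card := by
      refine Finset.card_le_card_of_injOn (fun p => (p.1.1.1, p.1.2.1)) ?_ ?_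
      · intro p hp
        rw [hT1] at hp
        simp only [Finset.coe_filter, Finset.mem_univ, true_and, Set.mem_setOf_eq] at hp
        simp only [Finset.coe_product, Finset.coe_range, Finset.coe_Ico, Set.mem_prod, Set.mem_Iio,
          Set.mem_Ico]
        exact ⟨lt_trans p.2 hp.2, hp⟩
      · intro p _ p' _ h
        simp only [Prod.mk.injEq] at h
        apply Subtype.ext
        exact Prod.ext (Fin.ext h.1) (Fin.ext h.2)
    refine h3.trans ?_
    rw [Finset.card_product, Finset.card_range, Nat.card_Ico, Nat.add_sub_cancel_left, mul_comm]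
  let f : Fin q × Fin q → W953.KC.Prs n := fun ab => ⟨(⟨r + u + ab.1.1, by have := ab.1.2; omega⟩,
    ⟨r + u + q + ab.2.1, by have := ab.2.2; omega⟩), by
      show r + u + ab.1.1 < r + u + q + ab.2.1
      have := ab.1.2
      omega⟩
  have hf : Function.Injective f := by
    intro a b hab
    have h1 := congrArg (fun p : W953.KC.Prs n => p.1.1.1) hab
    have h2 := congrArg (fun p : W953.KC.Prs n => p.1.2.1) hab
    simp only [f] at h1 h2
    exact Prod.ext (Fin.ext (by omega)) (Fin.ext (by omega))
  have hc : m ≤ (T1 ∪ Finset.univ.image f).card := by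
    refine le_trans ?_ (Finset.card_le_card Finset.subset_union_right)
    rw [Finset.card_image_of_injective _ hf, Finset.card_univ, Fintype.card_prod, Fintype.card_fin]
    rwa [sq] at hmq
  obtain ⟨T, hT1s, hTs, hTc⟩ := Finset.exists_subsuperset_card_eq
    (Finset.subset_union_left : T1 ⊆ T1 ∪ Finset.univ.image f) (h1.trans hum) hc
  refine ⟨T, hTc, ?_, ?_⟩
  · intro p hp1 hp2
    apply hT1s
    rw [hT1, Finset.mem_filter]
    exact ⟨Finset.mem_univ _, hp1, hp2⟩
  · intro p hp
    rcases Finset.mem_union.1 (hTs hp) with h | h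
    · rw [hT1, Finset.mem_filter] at h
      exact ⟨h.2.1, fun h' => by omega⟩
    · obtain ⟨ab, -, rfl⟩ := Finset.mem_image.1 h
      have h1 := ab.1.2
      have h2 := ab.2.2
      show r ≤ r + u + q + ab.2.1 ∧ (r + u ≤ r + u + q + ab.2.1 →
        r + u ≤ r + u + ab.1.1 ∧ r + u + ab.1.1 < r + u + q ∧ r + u + q ≤ r + u + q + ab.2.1)
      omega

end Pool.Agent.W2helper59.CN
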