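import Pool.Agent.W2helper26.CN.Defs

/-! # Project CN, piece SUB -/

set_option autoImplicit false

namespace Pool.Agent.W2helper59.CN

open Finset Pool.Agent Pool.Agent.W2helper26.CN Pool.Agent.W953.KC

section

variable {n r u q : ℕ} (e : W953.KC.Prs n ≃ Fin (n.choose 2)) (T : Finset (W953.KC.Prs n))

theorem ones_le' (hT : ∀ p ∈ T, r ≤ p.1.2.1) (z : Sym2 (Fin r) → Bool) :
    T.card ≤ W953.NW.wt (sx (psub e T r) z) ∧ W953.NW.wt (sx (psub e T r) z) ≤ T.card + r ^ 2 := by
  classical
  have h1 : W953.NW.wt (sx (psub e T r) z) =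
      (Finset.univ.filter (fun p : Prs n => sx (psub e T r) z (e p) = true)).card := by
    unfold W953.NW.wt
    refine (Finset.card_bij (fun p _ => e p) ?_ ?_ ?_).symm
    · intro p hp
      simpa using hp
    · intro p _ p' _ h
      exact e.injective h
    · intro c hc
      exact ⟨e.symm c, by simpa using hc, by simp⟩
  rw [h1]
  constructor
  · apply Finset.card_le_card
    intro p hp
    have := hT p hp
    rw [Finset.mem_filter]
    exact ⟨Finset.mem_univ _, (psub_big e T p (by omega) z).2 hp⟩
  · have h2 : (Finset.univ.filter (fun p : Prs n => sx (psub e T r) z (e p) = true)) ⊆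
        T ∪ (Finset.univ.filter (fun p : Prs n => p.1.2.1 < r)) := by
      intro p hp
      rw [Finset.mem_filter] at hp
      rw [Finset.mem_union, Finset.mem_filter]
      by_cases h : p.1.2.1 < r
      · exact Or.inr ⟨Finset.mem_univ _, h⟩
      · exact Or.inl ((psub_big e T p (by omega) z).1 hp.2)
    refine (Finset.card_le_card h2).trans ((Finset.card_union_le _ _).trans ?_)
    apply Nat.add_le_add_left
    have h3 : (Finset.univ.filter (fun p : Prs n => p.1.2.1 < r)).card ≤
        (Finset.range r ×ˢ Finset.range r).card := by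
      refine Finset.card_le_card_of_injOn (fun p => (p.1.1.1, p.1.2.1)) ?_ ?_
      · intro p hp
        simp only [Finset.coe_filter, Finset.mem_univ, true_and, Set.mem_setOf_eq] at hp
        simp only [Finset.coe_product, Finset.coe_range, Set.mem_prod, Set.mem_Iio]
        exact ⟨lt_trans p.2 hp, hp⟩
      · intro p _ p' _ h
        simp only [Prod.mk.injEq] at h
        apply Subtype.ext
        exact Prod.ext (Fin.ext h.1) (Fin.ext h.2)
    refine h3.trans ?_
    rw [Finset.card_product, Finset.card_range, sq]

variable (hT : Pads r u q T)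

include hT in
theorem adj_univ (z : Sym2 (Fin r) → Bool) {w v : Fin n} (hv : r ≤ v.1) (hv2 : v.1 < r + u)
    (hw : w.1 < r + u) (hwv : w ≠ v) : (gr e (sx (psub e T r) z)).Adj w v := by
  rcases lt_or_gt_of_ne hwv with h1 | h1
  · rw [gr_adj e _ h1, psub_big e T ⟨(w, v), h1⟩ hv z]
    exact hT.1 ⟨(w, v), h1⟩ hv hv2
  · rw [SimpleGraph.adj_comm]
    have h2 : v.1 < w.1 := h1
    rw [gr_adj e _ h1, psub_big e T ⟨(v, w), h1⟩ (by simp only; omega) z]
    exact hT.1 ⟨(v, w), h1⟩ (by simp only; omega) (by simp only; omega)

include hT in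
theorem adj_far (z : Sym2 (Fin r) → Bool) {w v : Fin n} (hv : r + u ≤ v.1)
    (h : (gr e (sx (psub e T r) z)).Adj w v) :
    r + u ≤ w.1 ∧ (w.1 < r + u + q ↔ ¬ v.1 < r + u + q) := by
  rcases lt_or_gt_of_ne h.ne with h1 | h1
  · rw [gr_adj e _ h1, psub_big e T ⟨(w, v), h1⟩ (by simp only; omega) z] at h
    have := (hT.2 _ h).2 (by simp only; omega)
    simp only at this
    omega
  · have h' := h.symm
    have h2 : v.1 < w.1 := h1
    rw [gr_adj e _ h1, psub_big e T ⟨(v, w), h1⟩ (by simp only; omega) z] at h'
    have := (hT.2 _ h').2 (by simp only; omega)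
    simp only at this
    omega

include hT in
theorem clique_iff' (hr : r + u ≤ n) (k : ℕ) (hk : 3 ≤ k) (z : Sym2 (Fin r) → Bool) :
    (gr e (sx (psub e T r) z)).CliqueFree (k + u) ↔
      (SimpleGraph.fromEdgeSet {c | z c = true}).CliqueFree k := by
  classical
  set G := gr e (sx (psub e T r) z) with hG
  set H := SimpleGraph.fromEdgeSet {c | z c = true} with hH
  have hrn : r ≤ n := by omega
  have key : ∀ a b : Fin r, G.Adj (Fin.castLE hrn a) (Fin.castLE hrn b) ↔ H.Adj a b := by
    have key1 : ∀ a b : Fin r, a < b →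
        (G.Adj (Fin.castLE hrn a) (Fin.castLE hrn b) ↔ H.Adj a b) := by
      intro a b hab
      have h1 : Fin.castLE hrn a < Fin.castLE hrn b := hab
      rw [hG, gr_adj e _ h1, psub_small e T h1 b.2 z, hH, SimpleGraph.fromEdgeSet_adj]
      constructor
      · intro h
        exact ⟨h, hab.ne⟩
      · intro h
        exact h.1
    intro a b
    rcases lt_trichotomy a b with h | h | h
    · exact key1 a b h
    · subst h
      simp
    · rw [G.adj_comm, H.adj_comm]
      exact key1 b a h
  set U : Finset (Fin n) := Finset.univ.filter (fun v => r ≤ v.1 ∧ v.1 < r + u) with hU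
  have hUc : U.card = u := by
    have h1 : U.card = (Finset.Ico r (r + u)).card := by
      refine Finset.card_bij (fun v _ => v.1) ?_ ?_ ?_
      · intro v hv
        rw [hU, Finset.mem_filter] at hv
        rw [Finset.mem_Ico]
        exact hv.2
      · intro a _ b _ hab
        exact Fin.ext hab
      · intro b hb
        rw [Finset.mem_Ico] at hb
        refine ⟨⟨b, by omega⟩, ?_, rfl⟩
        rw [hU, Finset.mem_filter]
        exact ⟨Finset.mem_univ _, hb⟩
    rw [h1, Nat.card_Ico]
    omega
  constructor
  · intro h s hs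
    refine h (s.map (Fin.castLEEmb hrn) ∪ U) ⟨?_, ?_⟩
    · intro a ha b hb hab
      rw [Finset.mem_coe, Finset.mem_union] at ha hb
      have hlt : ∀ x, x ∈ s.map (Fin.castLEEmb hrn) ∨ x ∈ U → x.1 < r + u := by
        intro x hx
        rcases hx with hx | hx
        · rw [Finset.mem_map] at hx
          obtain ⟨y, -, rfl⟩ := hx
          have := y.2
          show y.1 < r + u
          omega
        · rw [hU, Finset.mem_filter] at hx
          exact hx.2.2
      by_cases hbU : b ∈ U
      · rw [hU, Finset.mem_filter] at hbU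
        exact adj_univ e T hT z hbU.2.1 hbU.2.2 (hlt a ha) hab
      by_cases haU : a ∈ U
      · rw [hU, Finset.mem_filter] at haU
        exact (adj_univ e T hT z haU.2.1 haU.2.2 (hlt b hb) hab.symm).symm
      have ha' := ha.resolve_right haU
      have hb' := hb.resolve_right hbU
      rw [Finset.mem_map] at ha' hb'
      obtain ⟨x, hx, rfl⟩ := ha'
      obtain ⟨y, hy, rfl⟩ := hb'
      exact (key x y).2 (hs.1 hx hy (fun h => hab (by rw [h])))
    · rw [Finset.card_union_of_disjoint, Finset.card_map, hs.2, hUc]
      rw [Finset.disjoint_left]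
      intro x hx hxU
      rw [Finset.mem_map] at hx
      obtain ⟨y, -, rfl⟩ := hx
      rw [hU, Finset.mem_filter] at hxU
      have h1 : r ≤ y.1 := hxU.2.1
      have := y.2
      omega
  · intro h s hs
    have hsmall : ∀ v ∈ s, v.1 < r + u := by
      intro v hv
      by_contra hvr
      have h1 : 2 ≤ (s.erase v).card := by
        rw [Finset.card_erase_of_mem hv, hs.2]
        omega
      obtain ⟨w, hw, w', hw', hww⟩ := Finset.one_lt_card.1 (show 1 < (s.erase v).card by omega)
      rw [Finset.mem_erase] at hw hw'
      have a1 := adj_far e T hT z (by omega) (hs.1 hw.2 hv hw.1)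
      have a2 := adj_far e T hT z (by omega) (hs.1 hw'.2 hv hw'.1)
      have a3 := adj_far e T hT z a2.1 (hs.1 hw.2 hw'.2 hww)
      tauto
    set S' : Finset (Fin r) := Finset.univ.filter (fun a => Fin.castLE hrn a ∈ s) with hS'
    have hcl : H.IsNClique S'.card S' := by
      refine ⟨?_, rfl⟩
      intro a ha b hb hab
      rw [hS'] at ha hb
      simp only [Finset.coe_filter, Finset.mem_univ, true_and, Set.mem_setOf_eq] at ha hb
      exact (key a b).1 (hs.1 ha hb (fun h => hab (Fin.castLE_injective hrn h)))
    have hcard : k ≤ S'.card := by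
      have h1 : s ⊆ S'.map (Fin.castLEEmb hrn) ∪ U := by
        intro v hv
        have := hsmall v hv
        rw [Finset.mem_union]
        by_cases hvr : v.1 < r
        · left
          rw [Finset.mem_map]
          refine ⟨⟨v.1, hvr⟩, ?_, rfl⟩
          rw [hS', Finset.mem_filter]
          exact ⟨Finset.mem_univ _, hv⟩
        · right
          rw [hU, Finset.mem_filter]
          exact ⟨Finset.mem_univ _, by omega, this⟩
      have h2 := (Finset.card_le_card h1).trans (Finset.card_union_le _ _)
      rw [hs.2, Finset.card_map, hUc] at h2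
      omega
    exact h.mono hcard S' hcl

end

theorem p_sub : P_SUB := by
  intro n r u q e T hr hT z
  exact ⟨ones_le' e T (fun p hp => (hT.2 p hp).1) z, fun k hk => clique_iff' e T hT hr k hk z⟩

end Pool.Agent.W2helper59.CN
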